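import Pool.Agent.Y745.LD.DefsA

set_option autoImplicit false

/-!
Job LD-PW of helper745: the truncated exponential series is accurate where its argument is not extremely large.
-/

namespace Pool.Agent.Y363.LD

open Filter Topology Complex Pool.Agent.Y745.LD

/-- tail bound of the exponential series -/
theorem tail_le (w : ℂ) (n : ℕ) (h : ‖w‖ / (n.succ : ℝ) ≤ 1 / 2) :
    ‖(∑ j ∈ Finset.range n, w ^ j / (j.factorial : ℂ)) - cexp w‖ ≤
      2 * Real.exp (Real.exp 1 * ‖w‖ - n) := by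
  have h1 := Complex.exp_bound' (x := w) (n := n) h
  rw [norm_sub_rev]
  refine h1.trans ?_
  have h2 := Real.pow_div_factorial_le_exp (Real.exp 1 * ‖w‖) (by positivity) n
  have h3 : ‖w‖ ^ n / (n.factorial : ℝ) ≤ Real.exp (Real.exp 1 * ‖w‖ - n) := by
    rw [Real.exp_sub, le_div_iff₀ (Real.exp_pos _)]
    refine le_trans (le_of_eq ?_) h2
    rw [mul_pow, ← Real.exp_nat_mul]
    simp only [mul_one]
    ring
  linarith

theorem t_PW : P_PW := by
  intro κ A0 hA0
  refine ⟨(Real.exp 1 + 1) * (|κ| * A0) + 2, fun A hA => ?_⟩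
  have hLL : ∀ᶠ T : ℝ in atTop, 1 ≤ LL T := by
    have : Tendsto (fun T : ℝ => LL T) atTop atTop :=
      Real.tendsto_log_atTop.comp Real.tendsto_log_atTop
    exact this.eventually_ge_atTop 1
  filter_upwards [hLL] with T hT z hz
  set K := KA A T with hK
  set L := LL T with hL
  have hKA : A * L ≤ (K : ℝ) := Nat.le_ceil _
  set M : ℝ := |κ| * A0 with hM
  have hM0 : 0 ≤ M := by positivity
  have hw : ‖(κ : ℂ) * z‖ ≤ M * L := by
    rw [norm_mul, Complex.norm_real, Real.norm_eq_abs, hM, mul_assoc]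
    exact mul_le_mul_of_nonneg_left hz (abs_nonneg _)
  have he1 : (1 : ℝ) ≤ Real.exp 1 := by
    have := Real.add_one_le_exp (1 : ℝ)
    linarith
  have hA2 : (Real.exp 1 + 1) * M * L + 2 * L ≤ A * L := by
    have := mul_le_mul_of_nonneg_right hA (by linarith : (0 : ℝ) ≤ L)
    linarith
  have hML : 0 ≤ M * L := mul_nonneg hM0 (by linarith)
  have hML2 : 2 * (M * L) ≤ (Real.exp 1 + 1) * M * L := by
    have : 2 * (M * L) ≤ (Real.exp 1 + 1) * (M * L) :=
      mul_le_mul_of_nonneg_right (by linarith) hML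
    linarith
  have hsm : ‖(κ : ℂ) * z‖ / (((K + 1).succ : ℕ) : ℝ) ≤ 1 / 2 := by
    rw [div_le_iff₀ (by positivity)]
    push_cast
    linarith
  have h1 := tail_le ((κ : ℂ) * z) (K + 1) hsm
  have h2 : ‖tex K ((κ : ℂ) * z) - cexp ((κ : ℂ) * z)‖ ≤
      2 * Real.exp (Real.exp 1 * ‖(κ : ℂ) * z‖ - ((K + 1 : ℕ) : ℝ)) := h1
  refine h2.trans ?_
  have hre : -(M * L) ≤ κ * z.re := by
    have h3 : |κ * z.re| ≤ M * L := by
      rw [abs_mul, hM, mul_assoc]
      exact mul_le_mul_of_nonneg_left ((Complex.abs_re_le_norm z).trans hz) (abs_nonneg _)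
    exact (abs_le.1 h3).1
  have h4 : Real.exp 1 * ‖(κ : ℂ) * z‖ ≤ Real.exp 1 * (M * L) :=
    mul_le_mul_of_nonneg_left hw (Real.exp_pos _).le
  have h5 : Real.exp 1 * ‖(κ : ℂ) * z‖ - ((K + 1 : ℕ) : ℝ) ≤ κ * z.re - 2 := by
    push_cast
    have : (Real.exp 1 + 1) * M * L = Real.exp 1 * (M * L) + M * L := by ring
    linarith
  have h6 : Real.exp (Real.exp 1 * ‖(κ : ℂ) * z‖ - ((K + 1 : ℕ) : ℝ)) ≤
      Real.exp (κ * z.re) * Real.exp (-2) := by
    rw [← Real.exp_add]
    exact Real.exp_le_exp.2 (by linarith)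
  have h7 : Real.exp (-2 : ℝ) ≤ 1 / 4 := by
    have h8 : (4 : ℝ) ≤ Real.exp 2 := by
      have h9 : (2 : ℝ) ≤ Real.exp 1 := by
        have := Real.add_one_le_exp (1 : ℝ)
        linarith
      have h10 : Real.exp 2 = Real.exp 1 * Real.exp 1 := by
        rw [← Real.exp_add]; norm_num
      rw [h10]
      nlinarith
    rw [Real.exp_neg, inv_le_comm₀ (Real.exp_pos _) (by norm_num)]
    linarith
  have h11 : Real.exp (κ * z.re) * Real.exp (-2) ≤ Real.exp (κ * z.re) * (1 / 4) :=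
    mul_le_mul_of_nonneg_left h7 (Real.exp_pos _).le
  linarith

end Pool.Agent.Y363.LD
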