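import Pool.Agent.Y363.LD.ZL2b

set_option autoImplicit false

/-!
Job LD-ZL2 of helper745, part c: integrals.
-/

namespace Pool.Agent.Y363.LD

open Finset Complex MeasureTheory Pool.Agent.Y745.LD Pool.Agent.Y745.SW

noncomputable section

theorem cont_dp (b : ℕ → ℂ) (S : Finset ℕ) (hS : ∀ n ∈ S, n ≠ 0) :
    Continuous (fun t : ℝ => ∑ n ∈ S, b n * (n : ℂ) ^ (-(t : ℂ) * I)) := by
  refine continuous_finsetSum S fun n hn => ?_
  refine continuous_const.mul ?_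
  refine Continuous.const_cpow (by fun_prop) (Or.inl (Nat.cast_ne_zero.2 (hS n hn)))

theorem cont_Pc (c T : ℝ) : Continuous (fun t : ℝ => Pc c T t) := by
  unfold Pc Py
  refine continuous_finsetSum _ fun n hn => ?_
  refine Continuous.const_cpow (by fun_prop) (Or.inl (Nat.cast_ne_zero.2 (mem_filter.1 hn).2.ne_zero))

theorem cont_V (κ c A T : ℝ) : Continuous (fun t : ℝ => V κ c A T t) := by
  unfold V Qk tex
  have := cont_Pc c T
  fun_prop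

theorem V_nonneg (κ c A T t : ℝ) : 0 ≤ V κ c A T t := by unfold V; positivity

/-- mean square from the bilinear mean value theorem -/
theorem mvb_sq (hMVB : P_MVB) (X : ℕ) (T1 T2 : ℝ) (hT : T1 ≤ T2) (b : ℕ → ℂ) :
    ∫ t in T1..T2, ‖∑ n ∈ Icc 1 X, b n * (n : ℂ) ^ (-(t : ℂ) * I)‖ ^ 2 ≤
      ((T2 - T1) + 8 * X * (1 + Real.log X)) * ∑ n ∈ Icc 1 X, ‖b n‖ ^ 2 := by
  have h := hMVB X T1 T2 hT b b
  set Q := ∑ n ∈ Icc 1 X, ‖b n‖ ^ 2 with hQ
  have hQ0 : 0 ≤ Q := Finset.sum_nonneg fun _ _ => by positivity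
  have h1 : (∫ t in T1..T2, (∑ n ∈ Icc 1 X, b n * (n : ℂ) ^ (-(t : ℂ) * I)) *
      (starRingEnd ℂ) (∑ n ∈ Icc 1 X, b n * (n : ℂ) ^ (-(t : ℂ) * I))) =
      ((∫ t in T1..T2, ‖∑ n ∈ Icc 1 X, b n * (n : ℂ) ^ (-(t : ℂ) * I)‖ ^ 2 : ℝ) : ℂ) := by
    rw [← intervalIntegral.integral_ofReal]
    refine intervalIntegral.integral_congr fun t _ => ?_
    exact (by rw [Complex.mul_conj, Complex.normSq_eq_norm_sq])
  have h2 : (∑ n ∈ Icc 1 X, b n * (starRingEnd ℂ) (b n)) = (Q : ℂ) := by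
    rw [hQ]
    push_cast
    refine Finset.sum_congr rfl fun n _ => ?_
    rw [Complex.mul_conj, Complex.normSq_eq_norm_sq]
    push_cast
    rfl
  rw [h1, h2, Real.mul_self_sqrt hQ0, ← Complex.ofReal_mul, ← Complex.ofReal_sub, Complex.norm_real,
    Real.norm_eq_abs] at h
  have h3 := (abs_le.1 h).2
  linarith

/-- the weighted mean square of a bounded function with small mean square -/
theorem weighted_F (V0 : ℝ → ℝ) (F : ℝ → ℂ) (hV : Continuous V0) (hF : Continuous F)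
    (T M lam : ℝ) (hT : 0 ≤ T) (hlam : 0 < lam) (hM : ∀ t, ‖F t‖ ≤ M) :
    ∫ t in T..(2 * T), V0 t * ‖F t‖ ^ 2 ≤
      lam / 2 * (∫ t in T..(2 * T), V0 t ^ 2) + M ^ 2 / (2 * lam) * ∫ t in T..(2 * T), ‖F t‖ ^ 2 := by
  rw [← intervalIntegral.integral_const_mul, ← intervalIntegral.integral_const_mul,
    ← intervalIntegral.integral_add]
  · refine intervalIntegral.integral_mono_on (by linarith) ?_ ?_ ?_
    · exact (by fun_prop : Continuous fun t => V0 t * ‖F t‖ ^ 2).intervalIntegrable _ _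
    · exact (by fun_prop : Continuous fun t => lam / 2 * V0 t ^ 2 +
        M ^ 2 / (2 * lam) * ‖F t‖ ^ 2).intervalIntegrable _ _
    · intro t _
      have h1 : (‖F t‖ ^ 2) ^ 2 ≤ M ^ 2 * ‖F t‖ ^ 2 := by
        have h2 : ‖F t‖ ^ 2 ≤ M ^ 2 := by gcongr; exact hM t
        have h3 : 0 ≤ ‖F t‖ ^ 2 := by positivity
        nlinarith
      have h4 : V0 t * ‖F t‖ ^ 2 ≤ lam / 2 * V0 t ^ 2 + 1 / (2 * lam) * (‖F t‖ ^ 2) ^ 2 := by
        have h5 : 0 ≤ (lam * V0 t - ‖F t‖ ^ 2) ^ 2 / (2 * lam) := by positivity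
        have h6 : (lam * V0 t - ‖F t‖ ^ 2) ^ 2 / (2 * lam) =
            lam / 2 * V0 t ^ 2 + 1 / (2 * lam) * (‖F t‖ ^ 2) ^ 2 - V0 t * ‖F t‖ ^ 2 := by
          field_simp
          ring
        linarith
      have h7 : 1 / (2 * lam) * (‖F t‖ ^ 2) ^ 2 ≤ M ^ 2 / (2 * lam) * ‖F t‖ ^ 2 := by
        rw [div_mul_eq_mul_div, div_mul_eq_mul_div]
        refine div_le_div_of_nonneg_right ?_ (by positivity)
        linarith
      linarith
  · exact (by fun_prop : Continuous fun t => lam / 2 * V0 t ^ 2).intervalIntegrable _ _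
  · exact (by fun_prop : Continuous fun t => M ^ 2 / (2 * lam) * ‖F t‖ ^ 2).intervalIntegrable _ _

/-- pointwise combination -/
theorem comb_pt (f : ℝ) (R S G F P : ℂ) (g0 : ℝ) (h : |f - (R + S + G + F + P).re| ≤ 1) (hG : ‖G‖ ≤ g0) :
    (f - P.re) ^ 2 ≤ 2 * ‖R‖ ^ 2 + 6 * ‖S‖ ^ 2 + 6 * ‖F‖ ^ 2 + 6 * (g0 + 1) ^ 2 := by
  have hR := Complex.abs_re_le_norm R
  have hS := Complex.abs_re_le_norm S
  have hGr := Complex.abs_re_le_norm G
  have hF := Complex.abs_re_le_norm F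
  have hRn := norm_nonneg R
  have hSn := norm_nonneg S
  have hFn := norm_nonneg F
  have hGn := norm_nonneg G
  simp only [Complex.add_re] at h
  have h1 : |f - P.re| ≤ ‖R‖ + (‖S‖ + ‖F‖ + (g0 + 1)) := by
    rw [abs_le] at h hR hS hGr hF ⊢
    constructor <;> linarith [h.1, h.2, hR.1, hR.2, hS.1, hS.2, hGr.1, hGr.2, hF.1, hF.2]
  have h2 : (f - P.re) ^ 2 ≤ (‖R‖ + (‖S‖ + ‖F‖ + (g0 + 1))) ^ 2 := by
    rw [← sq_abs]; gcongr
  have h3 : (‖R‖ + (‖S‖ + ‖F‖ + (g0 + 1))) ^ 2 ≤ 2 * ‖R‖ ^ 2 + 2 * (‖S‖ + ‖F‖ + (g0 + 1)) ^ 2 := by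
    nlinarith [sq_nonneg (‖R‖ - (‖S‖ + ‖F‖ + (g0 + 1)))]
  have h4 : (‖S‖ + ‖F‖ + (g0 + 1)) ^ 2 ≤ 3 * (‖S‖ ^ 2 + ‖F‖ ^ 2 + (g0 + 1) ^ 2) := by
    nlinarith [sq_nonneg (‖S‖ - ‖F‖), sq_nonneg (‖S‖ - (g0 + 1)), sq_nonneg (‖F‖ - (g0 + 1))]
  linarith

/-- the integral over the set -/
theorem comb_int (V0 f : ℝ → ℝ) (R S G F P : ℝ → ℂ) (g0 BR BS BF IV0 T : ℝ) (E : Set ℝ)
    (hV : Continuous V0) (hV0 : ∀ t, 0 ≤ V0 t) (hRc : Continuous R) (hSc : Continuous S) (hFc : Continuous F)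
    (hT : 0 ≤ T) (hE : MeasurableSet E) (hE2 : E ⊆ Set.Icc T (2 * T))
    (hIV : IV0 = ∫ t in T..(2 * T), V0 t)
    (hpt : ∀ t ∈ E, |f t - (R t + S t + G t + F t + P t).re| ≤ 1) (hG : ∀ t ∈ E, ‖G t‖ ≤ g0)
    (hR : ∫ t in T..(2 * T), V0 t * ‖R t‖ ^ 2 ≤ BR * IV0)
    (hS : ∫ t in T..(2 * T), V0 t * ‖S t‖ ^ 2 ≤ BS * IV0)
    (hF : ∫ t in T..(2 * T), V0 t * ‖F t‖ ^ 2 ≤ BF * IV0)
    (hB : 0 ≤ BR) (hB2 : 0 ≤ BS) (hB3 : 0 ≤ BF) :
    ∫ t in E, V0 t * (f t - (P t).re) ^ 2 ≤ (2 * BR + 6 * BS + 6 * BF + 6 * (g0 + 1) ^ 2) * IV0 := by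
  have hT2 : T ≤ 2 * T := by linarith
  have hIV0 : 0 ≤ IV0 := by
    rw [hIV]
    exact intervalIntegral.integral_nonneg hT2 fun t _ => hV0 t
  by_cases hint : IntegrableOn (fun t => V0 t * (f t - (P t).re) ^ 2) E
  · set g : ℝ → ℝ := fun t => V0 t * (2 * ‖R t‖ ^ 2 + 6 * ‖S t‖ ^ 2 + 6 * ‖F t‖ ^ 2 + 6 * (g0 + 1) ^ 2) with hg
    have hgc : Continuous g := by rw [hg]; fun_prop
    have hg0 : ∀ t, 0 ≤ g t := fun t => mul_nonneg (hV0 t) (by positivity)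
    have h1 : ∫ t in E, V0 t * (f t - (P t).re) ^ 2 ≤ ∫ t in E, g t := by
      refine setIntegral_mono_on hint ?_ hE ?_
      · exact (hgc.integrableOn_Icc (a := T) (b := 2 * T)).mono_set hE2
      · intro t ht
        exact mul_le_mul_of_nonneg_left (comb_pt _ _ _ _ _ _ _ (hpt t ht) (hG t ht)) (hV0 t)
    have h2 : ∫ t in E, g t ≤ ∫ t in Set.Icc T (2 * T), g t := by
      refine setIntegral_mono_set hgc.integrableOn_Icc ?_ (Filter.Eventually.of_forall hE2)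
      exact Filter.Eventually.of_forall fun t => hg0 t
    have h3 : ∫ t in Set.Icc T (2 * T), g t = ∫ t in T..(2 * T), g t := by
      rw [intervalIntegral.integral_of_le hT2, integral_Icc_eq_integral_Ioc]
    have h4 : ∫ t in T..(2 * T), g t = 2 * (∫ t in T..(2 * T), V0 t * ‖R t‖ ^ 2) +
        6 * (∫ t in T..(2 * T), V0 t * ‖S t‖ ^ 2) + 6 * (∫ t in T..(2 * T), V0 t * ‖F t‖ ^ 2) +
        6 * (g0 + 1) ^ 2 * ∫ t in T..(2 * T), V0 t := by
      rw [← intervalIntegral.integral_const_mul, ← intervalIntegral.integral_const_mul,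
        ← intervalIntegral.integral_const_mul, ← intervalIntegral.integral_const_mul,
        ← intervalIntegral.integral_add, ← intervalIntegral.integral_add, ← intervalIntegral.integral_add]
      · refine intervalIntegral.integral_congr fun t _ => ?_
        simp only [hg]
        ring
      all_goals exact Continuous.intervalIntegrable (by fun_prop) _ _
    rw [h3, h4, ← hIV] at h2
    nlinarith
  · rw [integral_undef hint]
    positivity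

end

end Pool.Agent.Y363.LD
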