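import Pool.Agent.Y745.LD.DefsA

set_option autoImplicit false

/-!
Job LD-ZL2 of helper745, part d: asymptotics.
-/

namespace Pool.Agent.Y363.LD

open Filter Topology Pool.Agent.Y745.LD

noncomputable section

theorem tendsto_LL : Tendsto (fun T : ℝ => LL T) atTop atTop :=
  Real.tendsto_log_atTop.comp Real.tendsto_log_atTop

theorem ev_pow_le (c : ℝ) (hc : c < 1) : ∀ᶠ x : ℝ in atTop, 3 + 2 * x ^ c ≤ x := by
  have h1 : Tendsto (fun x : ℝ => x ^ (-(1 - c))) atTop (𝓝 0) := tendsto_rpow_neg_atTop (by linarith)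
  filter_upwards [h1.eventually (ge_mem_nhds (show (0 : ℝ) < 1 / 4 by norm_num)),
    eventually_ge_atTop (6 : ℝ)] with x hx hx6
  have h2 : x ^ c = x * x ^ (-(1 - c)) := by
    have h3 : x ^ (1 + -(1 - c)) = x ^ (1 : ℝ) * x ^ (-(1 - c)) := Real.rpow_add (by linarith) _ _
    rw [Real.rpow_one] at h3
    rw [← h3]
    congr 1; ring
  rw [h2]
  nlinarith

theorem ev_rho (e c C : ℝ) (he : e < 1 - c) :
    ∀ᶠ x : ℝ in atTop, (2 * (x ^ (e - 1) * x ^ c) + 1 / x ^ 2) * (Real.log x + C) ≤ 1 := by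
  have ha : 0 < 1 - e - c := by linarith
  have h1 : Tendsto (fun x : ℝ => Real.log x / x ^ (1 - e - c)) atTop (𝓝 0) :=
    (isLittleO_log_rpow_atTop ha).tendsto_div_nhds_zero
  have h2 : Tendsto (fun x : ℝ => x ^ (-(1 - e - c))) atTop (𝓝 0) := tendsto_rpow_neg_atTop ha
  have h3 : Tendsto (fun x : ℝ => Real.log x / x ^ (2 : ℝ)) atTop (𝓝 0) :=
    (isLittleO_log_rpow_atTop (by norm_num)).tendsto_div_nhds_zero
  have h4 : Tendsto (fun x : ℝ => x ^ (-(2 : ℝ))) atTop (𝓝 0) := tendsto_rpow_neg_atTop (by norm_num)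
  have h5 : Tendsto (fun x : ℝ => 2 * (Real.log x / x ^ (1 - e - c)) + 2 * C * x ^ (-(1 - e - c)) +
      Real.log x / x ^ (2 : ℝ) + C * x ^ (-(2 : ℝ))) atTop (𝓝 (2 * 0 + 2 * C * 0 + 0 + C * 0)) :=
    (((h1.const_mul 2).add (h2.const_mul (2 * C))).add h3).add (h4.const_mul C)
  have h6 : (2 * 0 + 2 * C * 0 + 0 + C * 0 : ℝ) = 0 := by ring
  rw [h6] at h5
  filter_upwards [h5.eventually (ge_mem_nhds (show (0 : ℝ) < 1 by norm_num)), eventually_gt_atTop (0 : ℝ)]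
    with x hx hx0
  refine le_trans (le_of_eq ?_) hx
  have h7 : x ^ (e - 1) * x ^ c = x ^ (-(1 - e - c)) := by
    rw [← Real.rpow_add hx0]; congr 1; ring
  have h8 : Real.log x / x ^ (1 - e - c) = Real.log x * x ^ (-(1 - e - c)) := by
    rw [Real.rpow_neg hx0.le]; rfl
  have h9 : Real.log x / x ^ (2 : ℝ) = Real.log x * x ^ (-(2 : ℝ)) := by
    rw [Real.rpow_neg hx0.le]; rfl
  have h10 : 1 / x ^ 2 = x ^ (-(2 : ℝ)) := by
    rw [Real.rpow_neg hx0.le, one_div]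
    congr 1
    norm_cast
  rw [h7, h8, h9, h10]
  ring

theorem ev_exp (C C' : ℝ) : ∀ᶠ x : ℝ in atTop, (x + C) ^ 2 * C' * Real.exp (-x) ≤ 1 := by
  have h1 := Real.tendsto_pow_mul_exp_neg_atTop_nhds_zero 2
  have h2 := Real.tendsto_pow_mul_exp_neg_atTop_nhds_zero 1
  have h3 := Real.tendsto_pow_mul_exp_neg_atTop_nhds_zero 0
  have h4 : Tendsto (fun x : ℝ => C' * (x ^ 2 * Real.exp (-x)) + 2 * C * C' * (x ^ 1 * Real.exp (-x)) +
      C ^ 2 * C' * (x ^ 0 * Real.exp (-x))) atTop (𝓝 (C' * 0 + 2 * C * C' * 0 + C ^ 2 * C' * 0)) :=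
    ((h1.const_mul C').add (h2.const_mul (2 * C * C'))).add (h3.const_mul (C ^ 2 * C'))
  have h6 : (C' * 0 + 2 * C * C' * 0 + C ^ 2 * C' * 0 : ℝ) = 0 := by ring
  rw [h6] at h4
  filter_upwards [h4.eventually (ge_mem_nhds (show (0 : ℝ) < 1 by norm_num))] with x hx
  refine le_trans (le_of_eq ?_) hx
  ring

theorem ev_loglog (B K C η : ℝ) (hB : 0 < B) (hη : 0 < η) :
    ∀ᶠ x : ℝ in atTop, K + 6 * (Real.log (B * x) + C) ^ 2 ≤ η * x := by
  have h1 : Tendsto (fun x : ℝ => Real.log x ^ 2 / x) atTop (𝓝 0) :=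
    (Real.isLittleO_pow_log_id_atTop (n := 2)).tendsto_div_nhds_zero
  have h2 : ∀ᶠ x : ℝ in atTop, Real.log x ^ 2 / x ≤ η / 24 :=
    h1.eventually (ge_mem_nhds (by positivity))
  filter_upwards [h2, eventually_gt_atTop (0 : ℝ),
    eventually_ge_atTop ((K + 12 * (Real.log B + C) ^ 2) / (η / 2))] with x hx hx0 hx1
  rw [div_le_iff₀ hx0] at hx
  rw [div_le_iff₀ (by positivity)] at hx1
  rw [Real.log_mul hB.ne' hx0.ne']
  nlinarith [sq_nonneg (Real.log x - (Real.log B + C))]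

/-- the auxiliary height in the estimate of Mertens -/
def Tz (c B T : ℝ) : ℝ := Real.exp ((B * LL T) ^ (1 / c))

theorem tendsto_Tz (c B : ℝ) (hc : 0 < c) (hB : 0 < B) : Tendsto (fun T : ℝ => Tz c B T) atTop atTop := by
  unfold Tz
  refine Real.tendsto_exp_atTop.comp ?_
  refine (tendsto_rpow_atTop (by positivity)).comp ?_
  exact tendsto_LL.const_mul_atTop hB

theorem yc_Tz (c B T : ℝ) (hc : 0 < c) (hB : 0 < B) (hL : 0 < LL T) :
    yc c (Tz c B T) = Real.exp (B * LL T) := by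
  unfold yc Tz
  rw [Real.log_exp, ← Real.rpow_mul (by positivity), one_div, inv_mul_cancel₀ hc.ne', Real.rpow_one]

theorem LL_Tz (c B T : ℝ) (hc : 0 < c) (hB : 0 < B) (hL : 0 < LL T) :
    c * LL (Tz c B T) = Real.log (B * LL T) := by
  unfold Tz
  rw [show LL (Real.exp ((B * LL T) ^ (1 / c))) = Real.log ((B * LL T) ^ (1 / c)) by
    unfold LL; rw [Real.log_exp], Real.log_rpow (by positivity)]
  field_simp

end

end Pool.Agent.Y363.LD
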