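import Pool.Agent.Y745.LD.DefsB
import Pool.Agent.Y363.LD.ZL2c
import Pool.Agent.Y363.LD.ZL2d

set_option autoImplicit false

/-!
Job LD-ZL2 of helper745: `log |ζ|` near the critical line against the sum over the small primes, weighted mean square.
-/

namespace Pool.Agent.Y363.LD

open Filter Topology Finset Complex MeasureTheory Pool.Agent.Y745.LD Pool.Agent.Y745.SW

noncomputable section

/-- the weighted mean square of the large prime powers, at a fixed height -/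
theorem F_int (hMVB : P_MVB) (κ c A T z M C1 d : ℝ) (X : ℕ) (w : ℕ → ℝ) (hw : ∀ n, 0 ≤ w n ∧ w n ≤ 1)
    (hd : 0 ≤ d) (hT : 1 ≤ T) (hz : 1 ≤ z) (hC1 : 1 ≤ C1) (hX : 8 * X * (1 + Real.log X) ≤ T)
    (hIV : T * Real.exp (κ ^ 2 * sc c T) ≤ C1 * IV κ c A T)
    (hV2 : ∫ t in T..(2 * T), V κ c A T t ^ 2 ≤ C1 * (T * Real.exp (4 * κ ^ 2 * sc c T)))
    (hM : ∀ t : ℝ, ‖∑ n ∈ Icc 1 X, bF w d (yc c T) z n * (n : ℂ) ^ (-(t : ℂ) * I)‖ ≤ M)
    (hMz : M ^ 2 * Real.exp (4 * κ ^ 2 * sc c T) * (z ^ (-(1 / 4) : ℝ) * C0) ≤ 1)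
    (hs : 0 ≤ sc c T) :
    ∫ t in T..(2 * T), V κ c A T t * ‖∑ n ∈ Icc 1 X, bF w d (yc c T) z n * (n : ℂ) ^ (-(t : ℂ) * I)‖ ^ 2 ≤
      ((C1 / 2 + 1) * C1) * IV κ c A T := by
  have hFc : Continuous (fun t : ℝ => ∑ n ∈ Icc 1 X, bF w d (yc c T) z n * (n : ℂ) ^ (-(t : ℂ) * I)) :=
    cont_dp _ _ (fun n hn => by have := (mem_Icc.1 hn).1; omega)
  have h1 := weighted_F (fun t => V κ c A T t) _ (cont_V κ c A T) hFc T M
    (Real.exp (-(4 * κ ^ 2 * sc c T))) (by linarith) (Real.exp_pos _) hM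
  have h2 := mvb_sq hMVB X T (2 * T) (by linarith) (bF w d (yc c T) z)
  have h3 := F_sq w hw d (yc c T) z hd hz X
  set E4 := Real.exp (4 * κ ^ 2 * sc c T) with hE4
  have hE4' : Real.exp (-(4 * κ ^ 2 * sc c T)) = E4⁻¹ := by rw [Real.exp_neg]
  have hE4p : 0 < E4 := Real.exp_pos _
  rw [hE4'] at h1
  have hQ0 : 0 ≤ z ^ (-(1 / 4) : ℝ) * C0 := mul_nonneg (by positivity) C0_nonneg
  have h4 : ∫ t in T..(2 * T), ‖∑ n ∈ Icc 1 X, bF w d (yc c T) z n * (n : ℂ) ^ (-(t : ℂ) * I)‖ ^ 2 ≤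
      2 * T * (z ^ (-(1 / 4) : ℝ) * C0) := by
    refine h2.trans ?_
    have h5 : (2 * T - T) + 8 * X * (1 + Real.log X) ≤ 2 * T := by linarith
    have h6 : 0 ≤ ∑ n ∈ Icc 1 X, ‖bF w d (yc c T) z n‖ ^ 2 := Finset.sum_nonneg fun _ _ => by positivity
    calc _ ≤ 2 * T * ∑ n ∈ Icc 1 X, ‖bF w d (yc c T) z n‖ ^ 2 := mul_le_mul_of_nonneg_right h5 h6
      _ ≤ _ := mul_le_mul_of_nonneg_left h3 (by linarith)
  have h7 : E4⁻¹ / 2 * (∫ t in T..(2 * T), V κ c A T t ^ 2) ≤ C1 / 2 * T := by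
    calc E4⁻¹ / 2 * (∫ t in T..(2 * T), V κ c A T t ^ 2) ≤ E4⁻¹ / 2 * (C1 * (T * E4)) :=
          mul_le_mul_of_nonneg_left hV2 (by positivity)
      _ = C1 / 2 * T := by field_simp
  have h8 : M ^ 2 / (2 * E4⁻¹) * (∫ t in T..(2 * T),
      ‖∑ n ∈ Icc 1 X, bF w d (yc c T) z n * (n : ℂ) ^ (-(t : ℂ) * I)‖ ^ 2) ≤ T := by
    calc _ ≤ M ^ 2 / (2 * E4⁻¹) * (2 * T * (z ^ (-(1 / 4) : ℝ) * C0)) :=
          mul_le_mul_of_nonneg_left h4 (by positivity)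
      _ = (M ^ 2 * E4 * (z ^ (-(1 / 4) : ℝ) * C0)) * T := by field_simp
      _ ≤ 1 * T := mul_le_mul_of_nonneg_right hMz (by linarith)
      _ = T := one_mul T
  have h9 : T ≤ C1 * IV κ c A T := by
    have h10 : T * 1 ≤ T * Real.exp (κ ^ 2 * sc c T) :=
      mul_le_mul_of_nonneg_left (Real.one_le_exp (by positivity)) (by linarith)
    linarith
  have h11 : (C1 / 2 + 1) * T ≤ (C1 / 2 + 1) * (C1 * IV κ c A T) :=
    mul_le_mul_of_nonneg_left h9 (by linarith)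
  linarith

/-- the coefficients at the small primes, all together -/
theorem S_tot (w : ℕ → ℝ) (hw : ∀ n, 0 ≤ w n ∧ w n ≤ 1) (d c T ρ ρ1 : ℝ) (hd : 0 ≤ d) (hρ0 : 0 ≤ ρ)
    (hw1 : ∀ n : ℕ, (n : ℝ) ≤ yc c T → 1 - w n ≤ ρ1)
    (hρ : d * Real.log T ^ c + ρ1 ≤ ρ) :
    (∑ p ∈ Pr c T, ‖bS w d p‖ / Real.sqrt p) ^ 2 + ∑ p ∈ Pr c T, ‖bS w d p‖ ^ 2 ≤
      (ρ * sc c T) ^ 2 + ρ ^ 2 * sc c T := by
  have hc : ∀ p ∈ Pr c T, p.Prime ∧ ‖bS w d p‖ ≤ ρ * (p : ℝ) ^ (-(1 / 2) : ℝ) := by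
    intro p hp
    have hp1 := (mem_filter.1 hp).2
    have hp2 := (mem_Icc.1 (mem_filter.1 hp).1).2
    have hp3 : (p : ℝ) ≤ yc c T := (Nat.le_floor_iff (Real.exp_pos _).le).1 hp2
    refine ⟨hp1, ?_⟩
    have hp0 : (0 : ℝ) < p := by exact_mod_cast hp1.pos
    have hlog : Real.log p ≤ Real.log T ^ c := by
      rw [← Real.log_exp (Real.log T ^ c)]
      exact Real.log_le_log hp0 hp3
    refine (S_coef w hw d ρ1 (Real.log T ^ c) hd p hp1 (hw1 p hp3) hlog).trans ?_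
    exact mul_le_mul_of_nonneg_right hρ (by positivity)
  have hsq : ∀ p : ℕ, p.Prime → ((p : ℝ) ^ (-(1 / 2) : ℝ)) ^ 2 = 1 / (p : ℝ) :=
    fun p hp => sq_half p hp.one_lt.le
  have h1 : ∑ p ∈ Pr c T, ‖bS w d p‖ / Real.sqrt p ≤ ρ * sc c T := by
    unfold sc
    rw [Finset.mul_sum]
    refine Finset.sum_le_sum fun p hp => ?_
    obtain ⟨hp1, hp2⟩ := hc p hp
    have hp0 : (0 : ℝ) < p := by exact_mod_cast hp1.pos
    have h2 : (p : ℝ) ^ (-(1 / 2) : ℝ) = (Real.sqrt p)⁻¹ := by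
      rw [Real.rpow_neg hp0.le, Real.sqrt_eq_rpow]
    rw [div_eq_mul_inv]
    calc ‖bS w d p‖ * (Real.sqrt p)⁻¹ ≤ ρ * (p : ℝ) ^ (-(1 / 2) : ℝ) * (Real.sqrt p)⁻¹ :=
          mul_le_mul_of_nonneg_right hp2 (by positivity)
      _ = ρ * ((p : ℝ) ^ (-(1 / 2) : ℝ)) ^ 2 := by rw [← h2]; ring
      _ = ρ * (1 / (p : ℝ)) := by rw [hsq p hp1]
  have h3 : ∑ p ∈ Pr c T, ‖bS w d p‖ ^ 2 ≤ ρ ^ 2 * sc c T := by
    unfold sc
    rw [Finset.mul_sum]
    refine Finset.sum_le_sum fun p hp => ?_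
    obtain ⟨hp1, hp2⟩ := hc p hp
    calc ‖bS w d p‖ ^ 2 ≤ (ρ * (p : ℝ) ^ (-(1 / 2) : ℝ)) ^ 2 := by gcongr
      _ = ρ ^ 2 * (1 / (p : ℝ)) := by rw [mul_pow, hsq p hp1]
  have h4 : 0 ≤ ∑ p ∈ Pr c T, ‖bS w d p‖ / Real.sqrt p := Finset.sum_nonneg fun _ _ => by positivity
  have h5 : (∑ p ∈ Pr c T, ‖bS w d p‖ / Real.sqrt p) ^ 2 ≤ (ρ * sc c T) ^ 2 := by gcongr
  linarith

theorem t_ZL2 (hMVB : P_MVB) (hVM1 : P_VM1) (hVMR : P_VMR) (hVMS : P_VMS) (hZ1 : P_Z1) : P_ZL2 := by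
  intro κ c hc0 hc1
  obtain ⟨A01, h1⟩ := hVM1 κ c hc0 hc1
  obtain ⟨A02, h2⟩ := hVMS κ c hc0 hc1
  refine ⟨max A01 A02, fun A hA e D δ he hec hD hδ => ?_⟩
  obtain ⟨C1, hC1, h1'⟩ := h1 A (le_trans (le_max_left _ _) hA)
  obtain ⟨C2, hC2, h2'⟩ := h2 A (le_trans (le_max_right _ _) hA)
  have hc'0 : 0 < 1 - e / 3 := by linarith
  have hc'1 : 1 - e / 3 < 1 := by linarith
  obtain ⟨A03, h3⟩ := hVM1 κ (1 - e / 3) hc'0 hc'1
  obtain ⟨C3, hC3, h3'⟩ := h3 A03 le_rfl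
  have h4 := hVMR κ c A (1 / 2) (δ / 4) hc0 hc1 (by norm_num) (by positivity)
  have h5 := hZ1 e D he (by linarith) hD
  set B1 : ℝ := 16 * κ ^ 2 + 4 with hB1
  have hB1p : 0 < B1 := by positivity
  have h6 : ∀ᶠ T : ℝ in atTop, |sc c (Tz c B1 T) - c * LL (Tz c B1 T)| ≤ C1 :=
    (tendsto_Tz c B1 hc0 hB1p).eventually (h1'.mono fun _ h => h.1)
  have e1 := Real.tendsto_log_atTop.eventually (ev_pow_le (1 - e / 3) hc'1)
  have e2 := Real.tendsto_log_atTop.eventually (ev_rho e c (C1 + 1) hec)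
  have e3 := tendsto_LL.eventually (ev_exp (C1 + C0) (Real.exp (4 * κ ^ 2 * C1) * C0))
  have e4 := tendsto_LL.eventually (ev_loglog B1
    (2 * (1 + δ / 4) * (C3 + C1 + C0) + 12 * C2 + 6 * ((C1 / 2 + 1) * C1)) (C1 + C0 + 1) (δ / 2) hB1p
    (by positivity))
  have e5 := tendsto_LL.eventually_ge_atTop (1 : ℝ)
  have e6 := Real.tendsto_log_atTop.eventually_ge_atTop (1 : ℝ)
  filter_upwards [h1', h2', h3', h4, h5, h6, e1, e2, e3, e4, e5, e6, eventually_ge_atTop (1 : ℝ)] with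
    T g1 g2 g3 g4 g5 g6 f1 f2 f3 f4 f5 f6 f7
  intro hGm k hk1 hk2
  obtain ⟨w, hw, hw1, hw2⟩ := g5 k hk1 hk2
  obtain ⟨g1a, g1b, g1c, -⟩ := g1
  obtain ⟨g3a, -⟩ := g3
  set L := Real.log T with hL
  have hLL : LL T = Real.log L := rfl
  set d := k * L ^ (e - 1) with hd
  have hd0 : 0 ≤ d := by positivity
  have hX : ⌊Real.exp (L ^ (1 - e / 3))⌋₊ = ⌊yc (1 - e / 3) T⌋₊ := rfl
  set X := ⌊Real.exp (L ^ (1 - e / 3))⌋₊ with hXd
  have hIV0 : 0 ≤ IV κ c A T := by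
    unfold IV
    exact intervalIntegral.integral_nonneg (by linarith) fun t _ => V_nonneg κ c A T t
  have hs0 : 0 ≤ sc c T := by
    unfold sc
    exact Finset.sum_nonneg fun _ _ => by positivity
  have hsle : sc c T ≤ LL T + C1 := by
    have := (abs_le.1 g1a).2
    nlinarith
  have hycle : yc c T ≤ yc (1 - e / 3) T := by
    unfold yc
    exact Real.exp_le_exp.2 (Real.rpow_le_rpow_of_exponent_le f6 (by linarith))
  have hyX : ⌊yc c T⌋₊ ≤ X := by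
    rw [hX]; exact Nat.floor_le_floor hycle
  set z := Real.exp (B1 * LL T) with hz
  have hz1 : 1 ≤ z := Real.one_le_exp (by positivity)
  have hLLp : 0 < LL T := by linarith
  -- Mertens
  have hmert : (∑ p ∈ (Icc 1 ⌊z⌋₊).filter Nat.Prime, (1 / (p : ℝ))) ≤ Real.log (B1 * LL T) + C1 := by
    have h7 := (abs_le.1 g6).2
    rw [LL_Tz c B1 T hc0 hB1p hLLp] at h7
    have h8 : sc c (Tz c B1 T) = ∑ p ∈ (Icc 1 ⌊z⌋₊).filter Nat.Prime, (1 / (p : ℝ)) := by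
      unfold sc Pr
      rw [yc_Tz c B1 T hc0 hB1p hLLp]
    rw [← h8]
    linarith
  set g0 := Real.log (B1 * LL T) + C1 + C0 with hg0
  -- the size of X
  have hXle : (X : ℝ) ≤ Real.exp (L ^ (1 - e / 3)) := Nat.floor_le (Real.exp_pos _).le
  have hTexp : T = Real.exp L := (Real.exp_log (by linarith)).symm
  have hX12 : (X : ℝ) ≤ T ^ (1 - 1 / 2 : ℝ) := by
    refine hXle.trans ?_
    rw [Real.rpow_def_of_pos (show 0 < T by linarith), ← hL]
    refine Real.exp_le_exp.2 ?_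
    linarith
  have hX8 : 8 * X * (1 + Real.log X) ≤ T := by
    rcases Nat.eq_zero_or_pos X with h0 | h0
    · rw [h0]; simp; linarith
    · have h0' : (0 : ℝ) < X := by exact_mod_cast h0
      have h7 : Real.log X ≤ L ^ (1 - e / 3) := by
        rw [← Real.log_exp (L ^ (1 - e / 3))]
        exact Real.log_le_log h0' hXle
      have h8 : 1 + Real.log X ≤ Real.exp (L ^ (1 - e / 3)) := by
        have := Real.add_one_le_exp (L ^ (1 - e / 3))
        linarith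
      have h9 : (8 : ℝ) ≤ Real.exp 3 := by
        have h10 : (2 : ℝ) ≤ Real.exp 1 := by
          have := Real.add_one_le_exp (1 : ℝ)
          linarith
        have h11 : Real.exp 3 = Real.exp 1 * Real.exp 1 * Real.exp 1 := by
          rw [← Real.exp_add, ← Real.exp_add]; norm_num
        rw [h11]
        nlinarith [Real.exp_pos (1 : ℝ)]
      have hlogX : 0 ≤ 1 + Real.log X := by
        have : (1 : ℝ) ≤ X := by exact_mod_cast h0
        have := Real.log_nonneg this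
        linarith
      calc 8 * X * (1 + Real.log X) ≤ Real.exp 3 * Real.exp (L ^ (1 - e / 3)) * Real.exp (L ^ (1 - e / 3)) := by
            have ha : 8 * (X : ℝ) ≤ Real.exp 3 * Real.exp (L ^ (1 - e / 3)) :=
              mul_le_mul h9 hXle h0'.le (Real.exp_pos _).le
            exact mul_le_mul ha h8 hlogX (by positivity)
        _ = Real.exp (3 + 2 * L ^ (1 - e / 3)) := by
            rw [← Real.exp_add, ← Real.exp_add]; congr 1; ring
        _ ≤ Real.exp L := Real.exp_le_exp.2 f1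
        _ = T := hTexp.symm
  -- the four parts
  have hR : ∫ t in T..(2 * T), V κ c A T t * ‖∑ n ∈ Icc 1 X, bR w d (yc c T) n * (n : ℂ) ^ (-(t : ℂ) * I)‖ ^ 2 ≤
      ((1 + δ / 4) * ((1 - c) * LL T + (C3 + C1 + C0))) * IV κ c A T := by
    have h7 := g4 X hX12 (bR w d (yc c T)) (by
      intro n p hn hp hpn
      unfold bR at hn
      by_cases h : 2 ≤ n ∧ Rough (yc c T) n
      · exact h.2 p hp hpn
      · rw [if_neg h] at hn; exact absurd rfl hn)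
    have h8 : ∑ n ∈ Icc 1 X, ‖bR w d (yc c T) n‖ ^ 2 ≤ (1 - c) * LL T + (C3 + C1 + C0) := by
      have h9 := R_sq w hw d c (1 - e / 3) T hd0 hycle
      rw [← hX] at h9
      have h10 := (abs_le.1 g3a).2
      have h11 := (abs_le.1 g1a).1
      have h12 : 0 ≤ e / 3 * LL T := by positivity
      have h13 : (1 - e / 3) * LL T = LL T - e / 3 * LL T := by ring
      linarith
    refine h7.trans ?_
    calc (1 + δ / 4) * IV κ c A T * ∑ n ∈ Icc 1 X, ‖bR w d (yc c T) n‖ ^ 2 ≤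
          (1 + δ / 4) * IV κ c A T * ((1 - c) * LL T + (C3 + C1 + C0)) :=
          mul_le_mul_of_nonneg_left h8 (by positivity)
      _ = _ := by ring
  have hS : ∫ t in T..(2 * T), V κ c A T t * ‖∑ p ∈ Pr c T, bS w d p * (p : ℂ) ^ (-(t : ℂ) * I)‖ ^ 2 ≤
      (2 * C2) * IV κ c A T := by
    have h7 := g2 (bS w d)
    set ρ := 2 * (L ^ (e - 1) * L ^ c) + 1 / L ^ 2 with hρ
    have hρ0 : 0 ≤ ρ := by positivity
    have h8 := S_tot w hw d c T ρ (1 / L ^ 2) hd0 hρ0 (by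
      intro n hn
      refine hw1 n (hn.trans ?_)
      unfold yc
      exact Real.exp_le_exp.2 (Real.rpow_le_rpow_of_exponent_le f6 (by linarith))) (by
      rw [hρ, hd, ← hL]
      have : k * L ^ (e - 1) * L ^ c ≤ 2 * (L ^ (e - 1) * L ^ c) := by
        rw [mul_assoc]
        exact mul_le_mul_of_nonneg_right hk2 (by positivity)
      linarith)
    have h9 : ρ * (Real.log L + (C1 + 1)) ≤ 1 := f2
    have h10 : ρ * sc c T ≤ 1 := by
      refine le_trans (mul_le_mul_of_nonneg_left ?_ hρ0) h9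
      rw [← hLL]; linarith
    have h11 : ρ ≤ 1 := by
      refine le_trans ?_ h9
      have : ρ * 1 ≤ ρ * (Real.log L + (C1 + 1)) := by
        refine mul_le_mul_of_nonneg_left ?_ hρ0
        rw [← hLL]; linarith
      linarith
    have h12 : 0 ≤ ρ * sc c T := mul_nonneg hρ0 hs0
    have h13 : (ρ * sc c T) ^ 2 ≤ 1 := by nlinarith
    have h14 : ρ ^ 2 * sc c T ≤ 1 := by nlinarith
    refine h7.trans ?_
    calc C2 * IV κ c A T * ((∑ p ∈ Pr c T, ‖bS w d p‖ / Real.sqrt p) ^ 2 + ∑ p ∈ Pr c T, ‖bS w d p‖ ^ 2) ≤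
          C2 * IV κ c A T * 2 := mul_le_mul_of_nonneg_left (by linarith) (by positivity)
      _ = _ := by ring
  have hF := F_int hMVB κ c A T z (LL T + C1 + C0) C1 d X w hw hd0 f7 hz1 hC1 hX8 g1b g1c (by
      intro t
      refine (F_bound w hw d (yc c T) z hd0 X t).trans ?_
      have : (∑ p ∈ (Icc 1 ⌊yc c T⌋₊).filter Nat.Prime, (1 / (p : ℝ))) = sc c T := rfl
      rw [this]
      linarith) (by
      have h7 : z ^ (-(1 / 4) : ℝ) = Real.exp (-(4 * κ ^ 2 + 1) * LL T) := by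
        rw [hz, ← Real.exp_mul]
        congr 1
        rw [hB1]; ring
      have h8 : Real.exp (4 * κ ^ 2 * sc c T) ≤ Real.exp (4 * κ ^ 2 * LL T) * Real.exp (4 * κ ^ 2 * C1) := by
        rw [← Real.exp_add]
        refine Real.exp_le_exp.2 ?_
        have : 4 * κ ^ 2 * sc c T ≤ 4 * κ ^ 2 * (LL T + C1) := mul_le_mul_of_nonneg_left hsle (by positivity)
        linarith
      rw [h7]
      have h9 : Real.exp (4 * κ ^ 2 * LL T) * Real.exp (-(4 * κ ^ 2 + 1) * LL T) = Real.exp (-LL T) := by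
        rw [← Real.exp_add]; congr 1; ring
      calc (LL T + C1 + C0) ^ 2 * Real.exp (4 * κ ^ 2 * sc c T) * (Real.exp (-(4 * κ ^ 2 + 1) * LL T) * C0) ≤
            (LL T + C1 + C0) ^ 2 * (Real.exp (4 * κ ^ 2 * LL T) * Real.exp (4 * κ ^ 2 * C1)) *
              (Real.exp (-(4 * κ ^ 2 + 1) * LL T) * C0) := by
            refine mul_le_mul_of_nonneg_right ?_ (mul_nonneg (Real.exp_pos _).le C0_nonneg)
            exact mul_le_mul_of_nonneg_left h8 (by positivity)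
        _ = (LL T + (C1 + C0)) ^ 2 * (Real.exp (4 * κ ^ 2 * C1) * C0) *
            (Real.exp (4 * κ ^ 2 * LL T) * Real.exp (-(4 * κ ^ 2 + 1) * LL T)) := by ring
        _ ≤ 1 := by rw [h9]; exact f3) hs0
  have hmain := comb_int (fun t => V κ c A T t)
    (fun t => Real.log ‖riemannZeta (1 / 2 + (k * L ^ (e - 1) : ℝ) + t * I)‖)
    (fun t => ∑ n ∈ Icc 1 X, bR w d (yc c T) n * (n : ℂ) ^ (-(t : ℂ) * I))
    (fun t => ∑ p ∈ Pr c T, bS w d p * (p : ℂ) ^ (-(t : ℂ) * I))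
    (fun t => ∑ n ∈ Icc 1 X, bG w d (yc c T) z n * (n : ℂ) ^ (-(t : ℂ) * I))
    (fun t => ∑ n ∈ Icc 1 X, bF w d (yc c T) z n * (n : ℂ) ^ (-(t : ℂ) * I))
    (fun t => Pc c T t) g0 _ _ _ (IV κ c A T) T
    (G1 1 D T ∩ Set.Icc (T + 4 * L) (2 * T - 4 * L))
    (cont_V κ c A T) (V_nonneg κ c A T)
    (cont_dp _ _ (fun n hn => by have := (mem_Icc.1 hn).1; omega))
    (cont_dp _ _ (fun n hn => (mem_filter.1 hn).2.ne_zero))
    (cont_dp _ _ (fun n hn => by have := (mem_Icc.1 hn).1; omega))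
    (by linarith) (hGm.inter measurableSet_Icc)
    (fun t ht => ⟨by linarith [ht.2.1], by linarith [ht.2.2]⟩) rfl
    (by
      intro t ht
      have h7 := hw2 t ⟨ht.1, by linarith [ht.2.1], by linarith [ht.2.2]⟩
      have h8 := decomp c T z X w d hyX t
      have h9 : (∑ n ∈ Icc 2 X, ((ArithmeticFunction.vonMangoldt n / Real.log n * w n : ℝ) : ℂ) *
          (n : ℂ) ^ (-(1 / 2 + (d : ℂ) + t * I))) =
          (∑ n ∈ Icc 1 X, bR w d (yc c T) n * (n : ℂ) ^ (-(t : ℂ) * I)) +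
          (∑ p ∈ Pr c T, bS w d p * (p : ℂ) ^ (-(t : ℂ) * I)) +
          (∑ n ∈ Icc 1 X, bG w d (yc c T) z n * (n : ℂ) ^ (-(t : ℂ) * I)) +
          (∑ n ∈ Icc 1 X, bF w d (yc c T) z n * (n : ℂ) ^ (-(t : ℂ) * I)) + Pc c T t := by
        rw [← h8]; ring
      rw [← h9]
      exact h7)
    (by
      intro t _
      refine (G_bound w hw d (yc c T) z hd0 X t).trans ?_
      linarith)
    hR hS hF (by
      have : 0 ≤ (1 - c) * LL T := mul_nonneg (by linarith) (by linarith)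
      have := C0_nonneg
      positivity) (by positivity) (by positivity)
  refine hmain.trans ?_
  refine mul_le_mul_of_nonneg_right ?_ hIV0
  have h20 : 6 * (Real.log (B1 * LL T) + (C1 + C0 + 1)) ^ 2 = 6 * (g0 + 1) ^ 2 := by
    rw [hg0]; ring
  rw [h20] at f4
  have h21 : 0 ≤ c * LL T := by positivity
  nlinarith

end

end Pool.Agent.Y363.LD
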