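import Pool.Agent.Y745.LD.DefsA

set_option autoImplicit false

/-!
Job LD-ZL2 of helper745, part a: sums over proper prime powers.
-/

namespace Pool.Agent.Y363.LD

open Finset

noncomputable section

/-- the constant `4 Σ n^{-3/2}` -/
def C0 : ℝ := 4 * ∑' n : ℕ, (n : ℝ) ^ (-(3 / 2) : ℝ)

theorem C0_nonneg : 0 ≤ C0 := by
  unfold C0
  have : 0 ≤ ∑' n : ℕ, (n : ℝ) ^ (-(3 / 2) : ℝ) := tsum_nonneg fun n => by positivity
  linarith

theorem sum_C0 (S : Finset ℕ) : ∑ n ∈ S, 4 * (n : ℝ) ^ (-(3 / 2) : ℝ) ≤ C0 := by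
  rw [← Finset.mul_sum]
  unfold C0
  refine mul_le_mul_of_nonneg_left ?_ (by norm_num)
  refine Summable.sum_le_tsum S (fun n _ => by positivity) ?_
  exact Real.summable_nat_rpow.2 (by norm_num)

theorem geo4 (x : ℝ) (hx0 : 0 ≤ x) (hx : x ≤ 3 / 4) (m J : ℕ) : ∑ j ∈ Icc m J, x ^ j ≤ 4 * x ^ m := by
  have h1 : ∑ j ∈ Icc m J, x ^ j ≤ ∑ j ∈ Finset.range (J + 1), x ^ m * x ^ j := by
    by_cases hmJ : m ≤ J
    · have : Icc m J = (Finset.range (J + 1 - m)).map (addLeftEmbedding m) := by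
        ext a
        simp only [mem_Icc, mem_map, mem_range, addLeftEmbedding_apply]
        constructor
        · rintro ⟨h1, h2⟩
          exact ⟨a - m, by omega, by omega⟩
        · rintro ⟨b, hb, rfl⟩
          omega
      rw [this, sum_map]
      simp only [addLeftEmbedding_apply, pow_add]
      refine sum_le_sum_of_subset_of_nonneg ?_ ?_
      · intro a; simp only [mem_range]; omega
      · intro a _ _; positivity
    · have : Icc m J = ∅ := by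
        ext a; simp only [mem_Icc, notMem_empty, iff_false]; omega
      rw [this, sum_empty]
      exact sum_nonneg fun a _ => by positivity
  refine h1.trans ?_
  rw [← Finset.mul_sum]
  have h2 : ∑ j ∈ Finset.range (J + 1), x ^ j ≤ 4 := by
    have h3 : (∑ j ∈ Finset.range (J + 1), x ^ j) * (x - 1) = x ^ (J + 1) - 1 := geom_sum_mul x (J + 1)
    have h4 : 0 ≤ x ^ (J + 1) := by positivity
    nlinarith
  have h5 : 0 ≤ x ^ m := by positivity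
  nlinarith

/-- proper prime powers with base `≤ Y` -/
def PP (Y : ℕ) (n : ℕ) : Prop := ∃ p j : ℕ, p.Prime ∧ p ≤ Y ∧ 2 ≤ j ∧ n = p ^ j

theorem pp_sum (θ : ℝ) (Y N : ℕ) (S : Finset ℕ) (hS : S ⊆ Icc 1 N) (h : ∀ n ∈ S, PP Y n) :
    ∑ n ∈ S, (n : ℝ) ^ (-θ) ≤
      ∑ p ∈ (Icc 1 Y).filter Nat.Prime, ∑ j ∈ Icc 2 N, ((p : ℝ) ^ (-θ)) ^ j := by
  classical
  rw [← Finset.sum_product' ((Icc 1 Y).filter Nat.Prime) (Icc 2 N) (fun p j => ((p : ℝ) ^ (-θ)) ^ j)]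
  have hsub : S ⊆ (((Icc 1 Y).filter Nat.Prime) ×ˢ (Icc 2 N)).image (fun x : ℕ × ℕ => x.1 ^ x.2) := by
    intro n hn
    obtain ⟨p, j, hp, hpY, hj, rfl⟩ := h n hn
    have hN := mem_Icc.1 (hS hn)
    simp only [mem_image, mem_product, mem_filter, mem_Icc, Prod.exists]
    refine ⟨p, j, ⟨⟨⟨hp.one_lt.le, hpY⟩, hp⟩, hj, ?_⟩, rfl⟩
    have h2 : j < 2 ^ j := Nat.lt_two_pow_self
    have h3 : 2 ^ j ≤ p ^ j := Nat.pow_le_pow_left hp.two_le j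
    omega
  refine (Finset.sum_le_sum_of_subset_of_nonneg hsub (fun n _ _ => by positivity)).trans ?_
  have hfib := Finset.sum_comp (s := ((Icc 1 Y).filter Nat.Prime) ×ˢ (Icc 2 N))
    (fun n : ℕ => (n : ℝ) ^ (-θ)) (fun x : ℕ × ℕ => x.1 ^ x.2)
  have h1 : ∑ n ∈ (((Icc 1 Y).filter Nat.Prime) ×ˢ (Icc 2 N)).image (fun x : ℕ × ℕ => x.1 ^ x.2),
      (n : ℝ) ^ (-θ) ≤ ∑ x ∈ ((Icc 1 Y).filter Nat.Prime) ×ˢ (Icc 2 N), ((x.1 ^ x.2 : ℕ) : ℝ) ^ (-θ) := by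
    rw [hfib]
    refine Finset.sum_le_sum fun n hn => ?_
    have hpos : 0 ≤ (n : ℝ) ^ (-θ) := by positivity
    have hcard : 1 ≤ #{x ∈ ((Icc 1 Y).filter Nat.Prime) ×ˢ (Icc 2 N) | x.1 ^ x.2 = n} := by
      rw [Nat.one_le_iff_ne_zero, ← Nat.pos_iff_ne_zero, Finset.card_pos]
      obtain ⟨x, hx, hxn⟩ := mem_image.1 hn
      exact ⟨x, mem_filter.2 ⟨hx, hxn⟩⟩
    rw [nsmul_eq_mul]
    have : (1 : ℝ) ≤ (#{x ∈ ((Icc 1 Y).filter Nat.Prime) ×ˢ (Icc 2 N) | x.1 ^ x.2 = n} : ℝ) := by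
      exact_mod_cast hcard
    nlinarith
  refine h1.trans (le_of_eq ?_)
  refine Finset.sum_congr rfl fun x hx => ?_
  rw [Nat.cast_pow, ← Real.rpow_natCast, ← Real.rpow_mul (by positivity), ← Real.rpow_natCast,
    ← Real.rpow_mul (by positivity), mul_comm]

theorem rpow_le_34 (θ : ℝ) (hθ : 1 / 2 ≤ θ) (p : ℕ) (hp : 2 ≤ p) : (p : ℝ) ^ (-θ) ≤ 3 / 4 := by
  have hp' : (2 : ℝ) ≤ p := by exact_mod_cast hp
  have h1 : (p : ℝ) ^ (-θ) ≤ (p : ℝ) ^ (-(1 / 2) : ℝ) :=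
    Real.rpow_le_rpow_of_exponent_le (by linarith) (by linarith)
  have h2 : (p : ℝ) ^ (-(1 / 2) : ℝ) ≤ (2 : ℝ) ^ (-(1 / 2) : ℝ) :=
    Real.rpow_le_rpow_of_nonpos (by norm_num) hp' (by norm_num)
  have h3 : (2 : ℝ) ^ (-(1 / 2) : ℝ) ≤ 3 / 4 := by
    rw [Real.rpow_neg (by norm_num), ← Real.sqrt_eq_rpow, inv_le_comm₀ (by positivity) (by norm_num)]
    rw [show ((3 : ℝ) / 4)⁻¹ = 4 / 3 by norm_num]
    exact Real.le_sqrt_of_sq_le (by norm_num)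
  linarith

/-- sum of `n^{-1/2}` over proper prime powers -/
theorem pp_half (Y N : ℕ) (S : Finset ℕ) (hS : S ⊆ Icc 1 N) (h : ∀ n ∈ S, PP Y n) :
    ∑ n ∈ S, (n : ℝ) ^ (-(1 / 2) : ℝ) ≤ (∑ p ∈ (Icc 1 Y).filter Nat.Prime, (1 / (p : ℝ))) + C0 := by
  refine (pp_sum (1 / 2) Y N S hS h).trans ?_
  have h1 : ∀ p ∈ (Icc 1 Y).filter Nat.Prime, ∑ j ∈ Icc 2 N, ((p : ℝ) ^ (-(1 / 2) : ℝ)) ^ j ≤
      1 / (p : ℝ) + 4 * (p : ℝ) ^ (-(3 / 2) : ℝ) := by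
    intro p hp
    have hp2 : p.Prime := (mem_filter.1 hp).2
    have hp0 : (0 : ℝ) < p := by exact_mod_cast hp2.pos
    have hx := rpow_le_34 (1 / 2) le_rfl p hp2.two_le
    have hx0 : 0 ≤ (p : ℝ) ^ (-(1 / 2) : ℝ) := by positivity
    have h2 : ∑ j ∈ Icc 2 N, ((p : ℝ) ^ (-(1 / 2) : ℝ)) ^ j ≤
        ((p : ℝ) ^ (-(1 / 2) : ℝ)) ^ 2 + ∑ j ∈ Icc 3 N, ((p : ℝ) ^ (-(1 / 2) : ℝ)) ^ j := by
      by_cases h2N : 2 ≤ N
      · rw [← Finset.insert_Icc_succ_left_eq_Icc (h := h2N), Finset.sum_insert (by simp)]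
        simp
      · have : Icc 2 N = ∅ := by
          ext a; simp only [mem_Icc, notMem_empty, iff_false]; omega
        rw [this, sum_empty]
        have : 0 ≤ ∑ j ∈ Icc 3 N, ((p : ℝ) ^ (-(1 / 2) : ℝ)) ^ j := sum_nonneg fun _ _ => by positivity
        positivity
    have h3 := geo4 _ hx0 hx 3 N
    have h4 : ((p : ℝ) ^ (-(1 / 2) : ℝ)) ^ 2 = 1 / (p : ℝ) := by
      rw [← Real.rpow_natCast, ← Real.rpow_mul hp0.le]
      norm_num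
      rw [Real.rpow_neg_one]
    have h5 : ((p : ℝ) ^ (-(1 / 2) : ℝ)) ^ 3 = (p : ℝ) ^ (-(3 / 2) : ℝ) := by
      rw [← Real.rpow_natCast, ← Real.rpow_mul hp0.le]
      norm_num
    rw [h5] at h3
    rw [h4] at h2
    linarith
  refine (Finset.sum_le_sum h1).trans ?_
  rw [Finset.sum_add_distrib]
  have := sum_C0 ((Icc 1 Y).filter Nat.Prime)
  linarith

/-- sum of `n^{-3/4}` over proper prime powers -/
theorem pp_34 (Y N : ℕ) (S : Finset ℕ) (hS : S ⊆ Icc 1 N) (h : ∀ n ∈ S, PP Y n) :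
    ∑ n ∈ S, (n : ℝ) ^ (-(3 / 4) : ℝ) ≤ C0 := by
  refine (pp_sum (3 / 4) Y N S hS h).trans ?_
  refine le_trans (Finset.sum_le_sum ?_) (sum_C0 ((Icc 1 Y).filter Nat.Prime))
  intro p hp
  have hp2 : p.Prime := (mem_filter.1 hp).2
  have hp0 : (0 : ℝ) < p := by exact_mod_cast hp2.pos
  have hx := rpow_le_34 (3 / 4) (by norm_num) p hp2.two_le
  have hx0 : 0 ≤ (p : ℝ) ^ (-(3 / 4) : ℝ) := by positivity
  refine (geo4 _ hx0 hx 2 N).trans (le_of_eq ?_)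
  rw [← Real.rpow_natCast, ← Real.rpow_mul hp0.le]
  norm_num

end

end Pool.Agent.Y363.LD
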