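import Pool.Agent.Y363.LD.ZL2a

set_option autoImplicit false

/-!
Job LD-ZL2 of helper745, part b: decomposition of the Dirichlet polynomial.
-/

namespace Pool.Agent.Y363.LD

open Finset Complex Pool.Agent.Y745.LD Pool.Agent.Y745.SW

noncomputable section

/-- the coefficient of `n^{-it}` -/
def an (w : ℕ → ℝ) (d : ℝ) (n : ℕ) : ℂ :=
  ((ArithmeticFunction.vonMangoldt n / Real.log n * w n : ℝ) : ℂ) * (n : ℂ) ^ (-(1 / 2 + (d : ℂ)))

/-- all prime factors are `> y` -/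
def Rough (y : ℝ) (n : ℕ) : Prop := ∀ p : ℕ, p.Prime → p ∣ n → y < p

open Classical in
def bR (w : ℕ → ℝ) (d y : ℝ) (n : ℕ) : ℂ := if 2 ≤ n ∧ Rough y n then an w d n else 0

def bS (w : ℕ → ℝ) (d : ℝ) (n : ℕ) : ℂ := an w d n - (n : ℂ) ^ (-(1 / 2 : ℂ))

open Classical in
def bG (w : ℕ → ℝ) (d y z : ℝ) (n : ℕ) : ℂ :=
  if (2 ≤ n ∧ ¬ n.Prime ∧ ¬ Rough y n) ∧ (n : ℝ) ≤ z then an w d n else 0

open Classical in
def bF (w : ℕ → ℝ) (d y z : ℝ) (n : ℕ) : ℂ :=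
  if (2 ≤ n ∧ ¬ n.Prime ∧ ¬ Rough y n) ∧ z < (n : ℝ) then an w d n else 0

theorem an_norm (w : ℕ → ℝ) (hw : ∀ n, 0 ≤ w n ∧ w n ≤ 1) (d : ℝ) (hd : 0 ≤ d) (n : ℕ) (hn : 1 ≤ n) :
    ‖an w d n‖ ≤ (n : ℝ) ^ (-(1 / 2) : ℝ) := by
  unfold an
  rw [norm_mul, Complex.norm_real, Complex.norm_natCast_cpow_of_pos hn]
  have hn1 : (1 : ℝ) ≤ n := by exact_mod_cast hn
  have h1 : ‖(ArithmeticFunction.vonMangoldt n / Real.log n * w n : ℝ)‖ ≤ 1 := by
    have h2 : 0 ≤ ArithmeticFunction.vonMangoldt n / Real.log n :=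
      div_nonneg ArithmeticFunction.vonMangoldt_nonneg (Real.log_nonneg hn1)
    have h3 : ArithmeticFunction.vonMangoldt n / Real.log n ≤ 1 :=
      div_le_one_of_le₀ ArithmeticFunction.vonMangoldt_le_log (Real.log_nonneg hn1)
    rw [Real.norm_eq_abs, abs_of_nonneg (mul_nonneg h2 (hw n).1)]
    exact mul_le_one₀ h3 (hw n).1 (hw n).2
  have h4 : (n : ℝ) ^ (-(1 / 2 + (d : ℂ))).re ≤ (n : ℝ) ^ (-(1 / 2) : ℝ) := by
    refine Real.rpow_le_rpow_of_exponent_le hn1 ?_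
    simp only [neg_re, add_re, ofReal_re]
    norm_num
    exact hd
  calc ‖(ArithmeticFunction.vonMangoldt n / Real.log n * w n : ℝ)‖ * (n : ℝ) ^ (-(1 / 2 + (d : ℂ))).re
      ≤ 1 * (n : ℝ) ^ (-(1 / 2) : ℝ) := mul_le_mul h1 h4 (by positivity) (by norm_num)
    _ = _ := one_mul _

theorem an_pp (w : ℕ → ℝ) (d : ℝ) (n : ℕ) (h : an w d n ≠ 0) : IsPrimePow n := by
  rw [← ArithmeticFunction.vonMangoldt_ne_zero_iff]
  intro h0
  apply h
  unfold an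
  rw [h0]
  simp

/-- a proper prime power with a factor `≤ y` -/
theorem pp_of_nonrough (w : ℕ → ℝ) (d y : ℝ) (n : ℕ) (h : an w d n ≠ 0) (hnp : ¬ n.Prime)
    (hr : ¬ Rough y n) : PP ⌊y⌋₊ n := by
  obtain ⟨p, k, hp, hk, hpk⟩ := (isPrimePow_nat_iff n).1 (an_pp w d n h)
  unfold Rough at hr
  push Not at hr
  obtain ⟨q, hq, hqn, hqy⟩ := hr
  rw [← hpk] at hqn
  have hqp : q = p := (Nat.prime_dvd_prime_iff_eq hq hp).1 (hq.dvd_of_dvd_pow hqn)
  subst hqp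
  refine ⟨q, k, hq, Nat.le_floor hqy, ?_, hpk.symm⟩
  by_contra hk2
  have : k = 1 := by omega
  subst this
  rw [pow_one] at hpk
  exact hnp (hpk ▸ hq)

theorem pp_of_le (w : ℕ → ℝ) (d : ℝ) (n N : ℕ) (h : an w d n ≠ 0) (hnp : ¬ n.Prime)
    (hN : n ≤ N) : PP N n := by
  obtain ⟨p, k, hp, hk, hpk⟩ := (isPrimePow_nat_iff n).1 (an_pp w d n h)
  refine ⟨p, k, hp, ?_, ?_, hpk.symm⟩
  · have : p ∣ n := by rw [← hpk]; exact dvd_pow_self p hk.ne'
    have hn0 : 0 < n := by rw [← hpk]; exact pow_pos hp.pos k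
    exact (Nat.le_of_dvd hn0 this).trans hN
  · by_contra hk2
    have : k = 1 := by omega
    subst this
    rw [pow_one] at hpk
    exact hnp (hpk ▸ hp)

theorem rough_prime (y : ℝ) (n : ℕ) (hn : n.Prime) : Rough y n ↔ y < n := by
  constructor
  · intro h; exact h n hn dvd_rfl
  · intro h p hp hpn
    rw [(Nat.prime_dvd_prime_iff_eq hp hn).1 hpn]; exact h

theorem an_term (w : ℕ → ℝ) (d t : ℝ) (n : ℕ) (hn : n ≠ 0) :
    ((ArithmeticFunction.vonMangoldt n / Real.log n * w n : ℝ) : ℂ) * (n : ℂ) ^ (-(1 / 2 + (d : ℂ) + t * I)) =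
      an w d n * (n : ℂ) ^ (-(t : ℂ) * I) := by
  unfold an
  rw [mul_assoc, ← Complex.cpow_add _ _ (Nat.cast_ne_zero.2 hn)]
  congr 2
  ring

theorem decomp (c T z : ℝ) (X : ℕ) (w : ℕ → ℝ) (d : ℝ) (hyX : ⌊yc c T⌋₊ ≤ X) (t : ℝ) :
    (∑ n ∈ Icc 2 X, ((ArithmeticFunction.vonMangoldt n / Real.log n * w n : ℝ) : ℂ) *
      (n : ℂ) ^ (-(1 / 2 + (d : ℂ) + t * I))) - Pc c T t =
    (∑ n ∈ Icc 1 X, bR w d (yc c T) n * (n : ℂ) ^ (-(t : ℂ) * I)) +
    (∑ p ∈ Pr c T, bS w d p * (p : ℂ) ^ (-(t : ℂ) * I)) +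
    (∑ n ∈ Icc 1 X, bG w d (yc c T) z n * (n : ℂ) ^ (-(t : ℂ) * I)) +
    (∑ n ∈ Icc 1 X, bF w d (yc c T) z n * (n : ℂ) ^ (-(t : ℂ) * I)) := by
  classical
  have hP : Pc c T t = ∑ p ∈ Pr c T, (p : ℂ) ^ (-(1 / 2 : ℂ)) * (p : ℂ) ^ (-(t : ℂ) * I) := by
    unfold Pc Py Pr
    refine Finset.sum_congr rfl fun p hp => ?_
    have hp0 : (p : ℂ) ≠ 0 := Nat.cast_ne_zero.2 (mem_filter.1 hp).2.ne_zero
    rw [← Complex.cpow_add _ _ hp0]
    congr 1
    ring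
  have hS : (∑ p ∈ Pr c T, bS w d p * (p : ℂ) ^ (-(t : ℂ) * I)) =
      (∑ p ∈ Pr c T, an w d p * (p : ℂ) ^ (-(t : ℂ) * I)) - Pc c T t := by
    rw [hP, ← Finset.sum_sub_distrib]
    refine Finset.sum_congr rfl fun p _ => ?_
    unfold bS
    ring
  have hA : (∑ p ∈ Pr c T, an w d p * (p : ℂ) ^ (-(t : ℂ) * I)) =
      ∑ n ∈ Icc 1 X, (if n.Prime ∧ ¬ Rough (yc c T) n then an w d n else 0) * (n : ℂ) ^ (-(t : ℂ) * I) := by
    simp only [ite_mul, zero_mul]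
    rw [← Finset.sum_filter]
    refine Finset.sum_congr ?_ fun _ _ => rfl
    ext n
    unfold Pr
    simp only [mem_filter, mem_Icc]
    constructor
    · rintro ⟨⟨h1, h2⟩, h3⟩
      refine ⟨⟨h1, h2.trans hyX⟩, h3, ?_⟩
      rw [rough_prime _ _ h3, not_lt]
      exact (Nat.le_floor_iff (Real.exp_pos _).le).1 h2
    · rintro ⟨⟨h1, h2⟩, h3, h4⟩
      rw [rough_prime _ _ h3, not_lt] at h4
      exact ⟨⟨h1, Nat.le_floor h4⟩, h3⟩
  have hL : (∑ n ∈ Icc 2 X, ((ArithmeticFunction.vonMangoldt n / Real.log n * w n : ℝ) : ℂ) *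
      (n : ℂ) ^ (-(1 / 2 + (d : ℂ) + t * I))) =
      ∑ n ∈ Icc 1 X, (if 2 ≤ n then an w d n else 0) * (n : ℂ) ^ (-(t : ℂ) * I) := by
    simp only [ite_mul, zero_mul]
    rw [← Finset.sum_filter]
    have : (Icc 1 X).filter (fun n => 2 ≤ n) = Icc 2 X := by
      ext n; simp only [mem_filter, mem_Icc]; omega
    rw [this]
    refine Finset.sum_congr rfl fun n hn => ?_
    exact an_term w d t n (by have := (mem_Icc.1 hn).1; omega)
  rw [hL, hS, hA]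
  have key : ∀ n ∈ Icc 1 X, (if 2 ≤ n then an w d n else 0) * (n : ℂ) ^ (-(t : ℂ) * I) =
      bR w d (yc c T) n * (n : ℂ) ^ (-(t : ℂ) * I) +
      (if n.Prime ∧ ¬ Rough (yc c T) n then an w d n else 0) * (n : ℂ) ^ (-(t : ℂ) * I) +
      bG w d (yc c T) z n * (n : ℂ) ^ (-(t : ℂ) * I) + bF w d (yc c T) z n * (n : ℂ) ^ (-(t : ℂ) * I) := by
    intro n hn
    rw [← add_mul, ← add_mul, ← add_mul]
    congr 1
    unfold bR bG bF
    by_cases h2 : 2 ≤ n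
    · by_cases hr : Rough (yc c T) n
      · simp [h2, hr]
      · by_cases hp : n.Prime
        · simp [h2, hr, hp]
        · by_cases hz : (n : ℝ) ≤ z
          · simp [h2, hr, hp, hz, not_lt.2 hz]
          · simp [h2, hr, hp, hz, not_le.1 hz]
    · have hp : ¬ n.Prime := fun h => h2 h.two_le
      simp [h2, hp]
  rw [Finset.sum_congr rfl key]
  simp only [Finset.sum_add_distrib]
  ring

theorem norm_nit (n : ℕ) (t : ℝ) : ‖(n : ℂ) ^ (-(t : ℂ) * I)‖ ≤ 1 := by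
  rcases Nat.eq_zero_or_pos n with h | h
  · subst h
    by_cases ht : -(t : ℂ) * I = 0
    · rw [ht]; simp
    · simp only [Nat.cast_zero]
      rw [Complex.zero_cpow ht]; simp
  · rw [Complex.norm_natCast_cpow_of_pos h]
    simp

/-- pointwise bound for the small prime powers -/
theorem G_bound (w : ℕ → ℝ) (hw : ∀ n, 0 ≤ w n ∧ w n ≤ 1) (d y z : ℝ) (hd : 0 ≤ d) (X : ℕ) (t : ℝ) :
    ‖∑ n ∈ Icc 1 X, bG w d y z n * (n : ℂ) ^ (-(t : ℂ) * I)‖ ≤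
      (∑ p ∈ (Icc 1 ⌊z⌋₊).filter Nat.Prime, (1 / (p : ℝ))) + C0 := by
  classical
  refine (norm_sum_le _ _).trans ?_
  have h1 : ∀ n ∈ Icc 1 X, ‖bG w d y z n * (n : ℂ) ^ (-(t : ℂ) * I)‖ ≤
      if bG w d y z n ≠ 0 then (n : ℝ) ^ (-(1 / 2) : ℝ) else 0 := by
    intro n hn
    by_cases h : bG w d y z n = 0
    · simp [h]
    · rw [if_pos h, norm_mul]
      have h2 : ‖bG w d y z n‖ ≤ (n : ℝ) ^ (-(1 / 2) : ℝ) := by
        unfold bG
        split_ifs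
        · exact an_norm w hw d hd n (mem_Icc.1 hn).1
        · rw [norm_zero]; positivity
      calc ‖bG w d y z n‖ * ‖(n : ℂ) ^ (-(t : ℂ) * I)‖ ≤ ‖bG w d y z n‖ * 1 :=
            mul_le_mul_of_nonneg_left (norm_nit n t) (norm_nonneg _)
        _ ≤ _ := by rw [mul_one]; exact h2
  refine (Finset.sum_le_sum h1).trans ?_
  rw [← Finset.sum_filter]
  refine pp_half ⌊z⌋₊ X _ (Finset.filter_subset _ _) ?_
  intro n hn
  have h2 := (mem_filter.1 hn).2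
  unfold bG at h2
  have h3 : (2 ≤ n ∧ ¬ n.Prime ∧ ¬ Rough y n) ∧ (n : ℝ) ≤ z := by
    by_contra h4
    rw [if_neg h4] at h2
    exact h2 rfl
  rw [if_pos h3] at h2
  exact pp_of_le w d n _ h2 h3.1.2.1 (Nat.le_floor h3.2)

/-- pointwise bound for the large prime powers -/
theorem F_bound (w : ℕ → ℝ) (hw : ∀ n, 0 ≤ w n ∧ w n ≤ 1) (d y z : ℝ) (hd : 0 ≤ d) (X : ℕ) (t : ℝ) :
    ‖∑ n ∈ Icc 1 X, bF w d y z n * (n : ℂ) ^ (-(t : ℂ) * I)‖ ≤
      (∑ p ∈ (Icc 1 ⌊y⌋₊).filter Nat.Prime, (1 / (p : ℝ))) + C0 := by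
  classical
  refine (norm_sum_le _ _).trans ?_
  have h1 : ∀ n ∈ Icc 1 X, ‖bF w d y z n * (n : ℂ) ^ (-(t : ℂ) * I)‖ ≤
      if bF w d y z n ≠ 0 then (n : ℝ) ^ (-(1 / 2) : ℝ) else 0 := by
    intro n hn
    by_cases h : bF w d y z n = 0
    · simp [h]
    · rw [if_pos h, norm_mul]
      have h2 : ‖bF w d y z n‖ ≤ (n : ℝ) ^ (-(1 / 2) : ℝ) := by
        unfold bF
        split_ifs
        · exact an_norm w hw d hd n (mem_Icc.1 hn).1
        · rw [norm_zero]; positivity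
      calc ‖bF w d y z n‖ * ‖(n : ℂ) ^ (-(t : ℂ) * I)‖ ≤ ‖bF w d y z n‖ * 1 :=
            mul_le_mul_of_nonneg_left (norm_nit n t) (norm_nonneg _)
        _ ≤ _ := by rw [mul_one]; exact h2
  refine (Finset.sum_le_sum h1).trans ?_
  rw [← Finset.sum_filter]
  refine pp_half ⌊y⌋₊ X _ (Finset.filter_subset _ _) ?_
  intro n hn
  have h2 := (mem_filter.1 hn).2
  unfold bF at h2
  have h3 : (2 ≤ n ∧ ¬ n.Prime ∧ ¬ Rough y n) ∧ z < (n : ℝ) := by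
    by_contra h4
    rw [if_neg h4] at h2
    exact h2 rfl
  rw [if_pos h3] at h2
  exact pp_of_nonrough w d y n h2 h3.1.2.1 h3.1.2.2

theorem sq_half (n : ℕ) (hn : 1 ≤ n) : ((n : ℝ) ^ (-(1 / 2) : ℝ)) ^ 2 = 1 / (n : ℝ) := by
  have hn0 : (0 : ℝ) < n := by exact_mod_cast hn
  rw [← Real.rpow_natCast, ← Real.rpow_mul hn0.le]
  norm_num
  rw [Real.rpow_neg_one]

/-- the mean square of the large prime powers -/
theorem F_sq (w : ℕ → ℝ) (hw : ∀ n, 0 ≤ w n ∧ w n ≤ 1) (d y z : ℝ) (hd : 0 ≤ d) (hz : 1 ≤ z) (X : ℕ) :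
    ∑ n ∈ Icc 1 X, ‖bF w d y z n‖ ^ 2 ≤ z ^ (-(1 / 4) : ℝ) * C0 := by
  classical
  have h1 : ∀ n ∈ Icc 1 X, ‖bF w d y z n‖ ^ 2 ≤
      if bF w d y z n ≠ 0 then z ^ (-(1 / 4) : ℝ) * (n : ℝ) ^ (-(3 / 4) : ℝ) else 0 := by
    intro n hn
    by_cases h : bF w d y z n = 0
    · simp [h]
    · rw [if_pos h]
      have hz' : z < n := by
        by_contra hz'
        apply h
        unfold bF
        rw [if_neg]
        intro hh; exact hz' hh.2
      have hn0 : (0 : ℝ) < n := by linarith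
      have h2 : ‖bF w d y z n‖ ≤ (n : ℝ) ^ (-(1 / 2) : ℝ) := by
        unfold bF
        split_ifs
        · exact an_norm w hw d hd n (mem_Icc.1 hn).1
        · rw [norm_zero]; positivity
      have h3 : ‖bF w d y z n‖ ^ 2 ≤ ((n : ℝ) ^ (-(1 / 2) : ℝ)) ^ 2 := by gcongr
      have h4 : ((n : ℝ) ^ (-(1 / 2) : ℝ)) ^ 2 = (n : ℝ) ^ (-(1 / 4) : ℝ) * (n : ℝ) ^ (-(3 / 4) : ℝ) := by
        rw [← Real.rpow_natCast, ← Real.rpow_mul hn0.le, ← Real.rpow_add hn0]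
        norm_num
      have h5 : (n : ℝ) ^ (-(1 / 4) : ℝ) ≤ z ^ (-(1 / 4) : ℝ) :=
        Real.rpow_le_rpow_of_nonpos (by linarith) hz'.le (by norm_num)
      rw [h4] at h3
      refine h3.trans ?_
      exact mul_le_mul_of_nonneg_right h5 (by positivity)
  refine (Finset.sum_le_sum h1).trans ?_
  rw [← Finset.sum_filter, ← Finset.mul_sum]
  refine mul_le_mul_of_nonneg_left ?_ (by positivity)
  refine pp_34 ⌊y⌋₊ X _ (Finset.filter_subset _ _) ?_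
  intro n hn
  have h2 := (mem_filter.1 hn).2
  unfold bF at h2
  have h3 : (2 ≤ n ∧ ¬ n.Prime ∧ ¬ Rough y n) ∧ z < (n : ℝ) := by
    by_contra h4
    rw [if_neg h4] at h2
    exact h2 rfl
  rw [if_pos h3] at h2
  exact pp_of_nonrough w d y n h2 h3.1.2.1 h3.1.2.2

/-- the sum of the squares of the rough coefficients -/
theorem R_sq (w : ℕ → ℝ) (hw : ∀ n, 0 ≤ w n ∧ w n ≤ 1) (d c c' T : ℝ) (hd : 0 ≤ d)
    (hcc : yc c T ≤ yc c' T) :
    ∑ n ∈ Icc 1 ⌊yc c' T⌋₊, ‖bR w d (yc c T) n‖ ^ 2 ≤ sc c' T - sc c T + C0 := by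
  classical
  set X := ⌊yc c' T⌋₊ with hX
  have h1 : ∀ n ∈ Icc 1 X, ‖bR w d (yc c T) n‖ ^ 2 ≤
      (if n.Prime ∧ yc c T < n then 1 / (n : ℝ) else 0) +
      (if an w d n ≠ 0 ∧ ¬ n.Prime then (n : ℝ) ^ (-(3 / 4) : ℝ) else 0) := by
    intro n hn
    have hn1 := (mem_Icc.1 hn).1
    have hn1' : (1 : ℝ) ≤ n := by exact_mod_cast hn1
    have hA := an_norm w hw d hd n hn1
    have hA2 : ‖an w d n‖ ^ 2 ≤ 1 / (n : ℝ) := by
      rw [← sq_half n hn1]; gcongr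
    have hB : 0 ≤ (if n.Prime ∧ yc c T < n then 1 / (n : ℝ) else 0) := by
      split_ifs <;> positivity
    have hC : 0 ≤ (if an w d n ≠ 0 ∧ ¬ n.Prime then (n : ℝ) ^ (-(3 / 4) : ℝ) else 0) := by
      split_ifs <;> positivity
    unfold bR
    by_cases h : 2 ≤ n ∧ Rough (yc c T) n
    · rw [if_pos h]
      by_cases hp : n.Prime
      · rw [if_pos ⟨hp, (rough_prime _ _ hp).1 h.2⟩]
        linarith
      · by_cases h0 : an w d n = 0
        · rw [h0, norm_zero]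
          rw [h0] at hC
          simpa using add_nonneg hB hC
        · have h3 : 1 / (n : ℝ) ≤ (n : ℝ) ^ (-(3 / 4) : ℝ) := by
            rw [one_div, ← Real.rpow_neg_one]
            exact Real.rpow_le_rpow_of_exponent_le hn1' (by norm_num)
          have h4 : (if an w d n ≠ 0 ∧ ¬ n.Prime then (n : ℝ) ^ (-(3 / 4) : ℝ) else 0) =
              (n : ℝ) ^ (-(3 / 4) : ℝ) := if_pos ⟨h0, hp⟩
          rw [h4]
          linarith
    · rw [if_neg h, norm_zero]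
      simpa using add_nonneg hB hC
  refine (Finset.sum_le_sum h1).trans ?_
  rw [Finset.sum_add_distrib]
  refine add_le_add ?_ ?_
  · have h2 : sc c' T = sc c T + ∑ n ∈ Icc 1 X, (if n.Prime ∧ yc c T < n then 1 / (n : ℝ) else 0) := by
      rw [← Finset.sum_filter]
      have hd : Disjoint (Pr c T) ((Icc 1 X).filter (fun n => n.Prime ∧ yc c T < n)) := by
        rw [Finset.disjoint_left]
        intro n hn hn'
        have h3 := (mem_Icc.1 (mem_filter.1 hn).1).2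
        have h4 := (mem_filter.1 hn').2.2
        have h5 := (Nat.le_floor_iff (Real.exp_pos _).le).1 h3
        unfold yc at h4
        linarith
      have hu : Pr c' T = (Pr c T).disjUnion ((Icc 1 X).filter (fun n => n.Prime ∧ yc c T < n)) hd := by
        ext n
        unfold Pr
        simp only [Finset.mem_disjUnion, mem_filter, mem_Icc]
        constructor
        · rintro ⟨⟨h3, h4⟩, h5⟩
          by_cases h6 : yc c T < n
          · exact Or.inr ⟨⟨h3, h4⟩, h5, h6⟩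
          · exact Or.inl ⟨⟨h3, Nat.le_floor (not_lt.1 h6)⟩, h5⟩
        · rintro (⟨⟨h3, h4⟩, h5⟩ | ⟨⟨h3, h4⟩, h5, h6⟩)
          · exact ⟨⟨h3, h4.trans (Nat.floor_le_floor hcc)⟩, h5⟩
          · exact ⟨⟨h3, h4⟩, h5⟩
      unfold sc
      rw [hu, Finset.sum_disjUnion]
    linarith
  · rw [← Finset.sum_filter]
    refine pp_34 X X _ (Finset.filter_subset _ _) ?_
    intro n hn
    have h2 := mem_filter.1 hn
    exact pp_of_le w d n X h2.2.1 h2.2.2 (mem_Icc.1 h2.1).2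

/-- the coefficients at the small primes -/
theorem S_coef (w : ℕ → ℝ) (hw : ∀ n, 0 ≤ w n ∧ w n ≤ 1) (d ρ1 ly : ℝ) (hd : 0 ≤ d) (p : ℕ)
    (hp : p.Prime) (hw1 : 1 - w p ≤ ρ1) (hly : Real.log p ≤ ly) :
    ‖bS w d p‖ ≤ (d * ly + ρ1) * (p : ℝ) ^ (-(1 / 2) : ℝ) := by
  have hp0 : (0 : ℝ) < p := by exact_mod_cast hp.pos
  have hp1 : (1 : ℝ) < p := by exact_mod_cast hp.one_lt
  have hlog : 0 < Real.log p := Real.log_pos hp1
  have hpc : (p : ℂ) ≠ 0 := Nat.cast_ne_zero.2 hp.ne_zero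
  have h1 : bS w d p = ((w p * (p : ℝ) ^ (-d) - 1 : ℝ) : ℂ) * (p : ℂ) ^ (-(1 / 2 : ℂ)) := by
    unfold bS an
    rw [ArithmeticFunction.vonMangoldt_apply_prime hp, div_self hlog.ne', one_mul, neg_add,
      Complex.cpow_add _ _ hpc]
    have : (p : ℂ) ^ (-(d : ℂ)) = (((p : ℝ) ^ (-d) : ℝ) : ℂ) := by
      rw [Complex.ofReal_cpow hp0.le]
      push_cast
      rfl
    rw [this]
    push_cast
    ring
  have h2 : (p : ℝ) ^ (-d) ≤ 1 := Real.rpow_le_one_of_one_le_of_nonpos hp1.le (by linarith)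
  have h3 : 1 - (p : ℝ) ^ (-d) ≤ d * Real.log p := by
    rw [Real.rpow_def_of_pos hp0]
    have := Real.add_one_le_exp (Real.log p * -d)
    linarith
  have h4 : 0 ≤ (p : ℝ) ^ (-d) := by positivity
  have h5 : |w p * (p : ℝ) ^ (-d) - 1| ≤ d * ly + ρ1 := by
    have h6 : w p * (p : ℝ) ^ (-d) ≤ 1 := mul_le_one₀ (hw p).2 h4 h2
    rw [abs_of_nonpos (by linarith)]
    have h7 : d * Real.log p ≤ d * ly := mul_le_mul_of_nonneg_left hly hd
    have h8 : (1 - w p) * (p : ℝ) ^ (-d) ≤ (1 - w p) * 1 :=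
      mul_le_mul_of_nonneg_left h2 (by linarith [(hw p).2])
    nlinarith
  rw [h1, norm_mul, Complex.norm_real, Complex.norm_natCast_cpow_of_pos hp.pos, Real.norm_eq_abs]
  have h9 : (-(1 / 2 : ℂ)).re = (-(1 / 2) : ℝ) := by
    simp only [neg_re]; norm_num
  rw [h9]
  exact mul_le_mul_of_nonneg_right h5 (by positivity)

end

end Pool.Agent.Y363.LD
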